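import Pool.Agent.H47.ST.Targets

namespace Pool.Agent.H51.STK

open Finset Pool.Agent.H47.ST

theorem wt_pos (R : ℕ) (W U : ℝ) (hW : 1 ≤ W) (hU : 1 ≤ U) (e hl r hr : ℕ) :
    0 < wt R W U e hl r hr := by
  unfold wt
  have h1 : (0:ℝ) < if walker hl r hr then W else 1 := by split_ifs <;> linarith
  have h2 : (0:ℝ) < if pend e hl r hr then U else 1 := by split_ifs <;> linarith
  positivity

theorem phC_pos (R : ℕ) (W U : ℝ) (hW : 1 ≤ W) (hU : 1 ≤ U) (e : ℕ) :
    ∀ (B : List ℕ) (hl hr : ℕ), 0 < phC R W U e hl B hr := by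
  intro B
  induction B with
  | nil => intro hl hr; simp [phC]
  | cons r B ih =>
    intro hl hr
    simp only [phC]
    exact mul_pos (wt_pos R W U hW hU _ _ _ _) (ih _ _)

theorem PA_cons (R : ℕ) (W U : ℝ) (e : ℕ) (B : List ℕ) (Bs : List (List ℕ)) :
    PA R W U e (B :: Bs) = phC R W U e 0 B 0 * PA R W U e Bs := by
  simp [PA]

theorem PA_pos (R : ℕ) (W U : ℝ) (hW : 1 ≤ W) (hU : 1 ≤ U) (e : ℕ) :
    ∀ st : List (List ℕ), 0 < PA R W U e st := by
  intro st
  induction st with
  | nil => simp [PA]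
  | cons B Bs ih =>
    rw [PA_cons]
    exact mul_pos (phC_pos R W U hW hU e _ _ _) ih

theorem part1 (h3 : T_O) (R : ℕ) (W U : ℝ) (e : ℕ) (hW : 1 ≤ W) (hU : 1 ≤ U) (he : e < 2) :
    ∀ (st : List (List ℕ)) (h : ℕ),
      PA R W U e (upR e h st) * U ^ (pops e h st).card ≤ PA R W U e st := by
  intro st
  induction st with
  | nil => intro h; simp [upR, pops]
  | cons B Bs ih =>
    intro h
    have hO := h3 R W U e h B hW hU he
    have hI := ih (top h B)
    simp only [upR, pops, PA_cons]
    have hc : (vis e h B ∪ pops e (top h B) Bs).card ≤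
        (vis e h B).card + (pops e (top h B) Bs).card := card_union_le _ _
    have hp : U ^ (vis e h B ∪ pops e (top h B) Bs).card ≤
        U ^ (vis e h B).card * U ^ (pops e (top h B) Bs).card := by
      rw [← pow_add]
      exact pow_le_pow_right₀ hU hc
    have hU0 : (0:ℝ) ≤ U := by linarith
    have hA : 0 < phC R W U e 0 (up e h B) 0 := phC_pos R W U hW hU e _ _ _
    have hB : 0 < PA R W U e (upR e (top h B) Bs) := PA_pos R W U hW hU e _
    calc phC R W U e 0 (up e h B) 0 * PA R W U e (upR e (top h B) Bs) *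
          U ^ (vis e h B ∪ pops e (top h B) Bs).card
        ≤ phC R W U e 0 (up e h B) 0 * PA R W U e (upR e (top h B) Bs) *
          (U ^ (vis e h B).card * U ^ (pops e (top h B) Bs).card) :=
          mul_le_mul_of_nonneg_left hp (mul_pos hA hB).le
      _ = (phC R W U e 0 (up e h B) 0 * U ^ (vis e h B).card) *
          (PA R W U e (upR e (top h B) Bs) * U ^ (pops e (top h B) Bs).card) := by ring
      _ ≤ phC R W U e 0 B 0 * PA R W U e Bs :=
          mul_le_mul hO hI (mul_nonneg hB.le (pow_nonneg hU0 _)) (phC_pos R W U hW hU e _ _ _).le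

theorem PA_mir (h2 : T_MIR) (R : ℕ) (W U : ℝ) (e : ℕ) (he : e < 2) (st : List (List ℕ)) :
    PA R W U (1 - e) (mir st) = PA R W U e st := by
  unfold PA mir
  rw [List.map_reverse, List.prod_reverse, List.map_map]
  congr 1
  apply List.map_congr_left
  intro B _
  exact h2 R W U e 0 0 B he

theorem tsum_mir (h1 : T_TOP) (st : List (List ℕ)) : tsum (mir st) = tsum st := by
  unfold Pool.Agent.H47.ST.tsum mir
  rw [List.map_reverse, List.sum_reverse, List.map_map]
  congr 1
  apply List.map_congr_left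
  intro B _
  exact h1.2.2.1 B

theorem part3 (h1 : T_TOP) (e : ℕ) : ∀ (st : List (List ℕ)) (h : ℕ),
    tsum st ≤ tsum (upR e h st) := by
  intro st
  induction st with
  | nil => intro h; simp [upR]
  | cons B Bs ih =>
    intro h
    have hI := ih (top h B)
    have hT : top 0 B ≤ top 0 (up e h B) := by
      rw [h1.2.2.2 e h B]
      split_ifs <;> omega
    simp only [Pool.Agent.H47.ST.tsum, upR, List.map_cons, List.sum_cons] at hI ⊢
    omega

theorem pf_SC (h1 : T_TOP) (h2 : T_MIR) (h3 : T_O) : T_SC := by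
  intro R W U e h st hW hU he
  have he' : 1 - e < 2 := by omega
  have hee : 1 - (1 - e) = e := by omega
  refine ⟨part1 h3 R W U e hW hU he st h, ?_, part3 h1 e st h, ?_⟩
  · have a := part1 h3 R W U (1 - e) hW hU he' (mir st) h
    have b := PA_mir h2 R W U e he st
    have c := PA_mir h2 R W U (1 - e) he' (upR (1 - e) h (mir st))
    rw [hee] at c
    unfold upL
    rw [c, ← b]
    exact a
  · have a := part3 h1 (1 - e) (mir st) h
    rw [tsum_mir h1] at a
    unfold upL
    rw [tsum_mir h1]
    exact a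

end Pool.Agent.H51.STK
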